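import Mathlib

/-!
# Colour-symmetric `k`-dependent `q`-colourings of all cycles, `k ≥ 2`, `q ≥ 4`

For all `k ≥ 2`, `q ≥ 4` and `n ≥ 3` the cycle with `n` vertices has a random proper `q`-colouring
whose law is invariant under all permutations of the colours and whose restrictions to sets of
vertices at distance more than `k` are independent.
-/

set_option autoImplicit false

open MeasureTheory ProbabilityTheory

namespace Pool.Agent.Results.MP_240aa8_pr.TwoDependentCycles

section picks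

variable {C : Type} [DecidableEq C]

/-- the first of two colours which differs from `u` -/
def pick2 (c₀ c₁ u : C) : C := if c₀ = u then c₁ else c₀

/-- the first of three colours which differs from `u` and `w` -/
def pick3 (c₀ c₁ c₂ u w : C) : C :=
  if c₀ = u ∨ c₀ = w then (if c₁ = u ∨ c₁ = w then c₂ else c₁) else c₀

theorem pick2_ne {c₀ c₁ u : C} (h : c₀ ≠ c₁) : pick2 c₀ c₁ u ≠ u := by
  unfold pick2
  split_ifs with h1
  · rw [← h1]; exact h.symm
  · exact h1

theorem pick2_mem (c₀ c₁ u : C) : pick2 c₀ c₁ u = c₀ ∨ pick2 c₀ c₁ u = c₁ := by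
  unfold pick2
  split_ifs
  · exact Or.inr rfl
  · exact Or.inl rfl

theorem pick3_ne {c₀ c₁ c₂ u w : C} (h01 : c₀ ≠ c₁) (h02 : c₀ ≠ c₂) (h12 : c₁ ≠ c₂) :
    pick3 c₀ c₁ c₂ u w ≠ u ∧ pick3 c₀ c₁ c₂ u w ≠ w := by
  unfold pick3
  split_ifs with h1 h2
  · rcases h1 with h1 | h1 <;> rcases h2 with h2 | h2
    · exact absurd (h1.trans h2.symm) h01
    · rw [← h1, ← h2]; exact ⟨h02.symm, h12.symm⟩
    · rw [← h1, ← h2]; exact ⟨h12.symm, h02.symm⟩
    · exact absurd (h1.trans h2.symm) h01
  · exact not_or.1 h2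
  · exact not_or.1 h1

theorem pick2_map (σ : Equiv.Perm C) (c₀ c₁ u : C) :
    pick2 (σ c₀) (σ c₁) (σ u) = σ (pick2 c₀ c₁ u) := by
  unfold pick2
  simp only [EmbeddingLike.apply_eq_iff_eq]
  split_ifs <;> rfl

theorem pick3_map (σ : Equiv.Perm C) (c₀ c₁ c₂ u w : C) :
    pick3 (σ c₀) (σ c₁) (σ c₂) (σ u) (σ w) = σ (pick3 c₀ c₁ c₂ u w) := by
  unfold pick3
  simp only [EmbeddingLike.apply_eq_iff_eq]
  split_ifs <;> rfl

end picks

section colouring

variable {m q : ℕ}

/-- The colouring.  `n = m + 3`, the variable of a vertex is a permutation of the colours. -/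
def X (hq : 4 ≤ q) (ω : Fin (m + 3) → Equiv.Perm (Fin q)) (v : Fin (m + 3)) : Fin q :=
  if (m + 3) % 2 = 1 ∧ (v : ℕ) = m + 1 then
    pick2 (ω v (Fin.castLE hq 0)) (ω v (Fin.castLE hq 1)) (ω (v - 1) (Fin.castLE hq 0))
  else if (m + 3) % 2 = 1 ∧ (v : ℕ) = m + 2 then
    pick2 (ω (v - 1) (Fin.castLE hq 2)) (ω (v - 1) (Fin.castLE hq 3))
      (ω (v + 1) (Fin.castLE hq 0))
  else if (v : ℕ) % 2 = 0 then ω v (Fin.castLE hq 0)
  else pick3 (ω v (Fin.castLE hq 0)) (ω v (Fin.castLE hq 1)) (ω v (Fin.castLE hq 2))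
    (ω (v - 1) (Fin.castLE hq 0)) (ω (v + 1) (Fin.castLE hq 0))

theorem X_local (hq : 4 ≤ q) (ω ω' : Fin (m + 3) → Equiv.Perm (Fin q)) (v : Fin (m + 3))
    (h0 : ω v = ω' v) (h1 : ω (v - 1) = ω' (v - 1)) (h2 : ω (v + 1) = ω' (v + 1)) :
    X hq ω v = X hq ω' v := by
  unfold X
  rw [h0, h1, h2]

theorem X_map (hq : 4 ≤ q) (σ : Equiv.Perm (Fin q)) (ω : Fin (m + 3) → Equiv.Perm (Fin q))
    (v : Fin (m + 3)) : X hq (fun u => σ * ω u) v = σ (X hq ω v) := by
  unfold X
  simp only [Equiv.Perm.mul_apply, pick2_map, pick3_map]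
  split_ifs <;> rfl

theorem ne_of_ne (hq : 4 ≤ q) (π : Equiv.Perm (Fin q)) {i j : Fin 4} (h : i ≠ j) :
    π (Fin.castLE hq i) ≠ π (Fin.castLE hq j) := by
  intro h1
  exact h (Fin.castLE_injective hq (π.injective h1))

theorem val_succ (v : Fin (m + 3)) :
    ((v + 1 : Fin (m + 3)) : ℕ) = if (v : ℕ) = m + 2 then 0 else (v : ℕ) + 1 := by
  rw [Fin.val_add_one]
  have : (v = Fin.last (m + 2)) ↔ (v : ℕ) = m + 2 := by
    rw [Fin.ext_iff, Fin.val_last]
  simp only [this]

theorem X_proper (hq : 4 ≤ q) (ω : Fin (m + 3) → Equiv.Perm (Fin q)) (v : Fin (m + 3)) :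
    X hq ω v ≠ X hq ω (v + 1) := by
  have hv := v.2
  have hs := val_succ v
  have e1 : v + 1 - 1 = v := add_sub_cancel_right v 1
  have d01 : (0 : Fin 4) ≠ 1 := by decide
  have d02 : (0 : Fin 4) ≠ 2 := by decide
  have d12 : (1 : Fin 4) ≠ 2 := by decide
  have d03 : (0 : Fin 4) ≠ 3 := by decide
  have d13 : (1 : Fin 4) ≠ 3 := by decide
  have d23 : (2 : Fin 4) ≠ 3 := by decide
  by_cases hy : (m + 3) % 2 = 1 ∧ (v : ℕ) = m + 1
  · -- `v` is the first special vertex
    have hs1 : ((v + 1 : Fin (m + 3)) : ℕ) = m + 2 := by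
      rw [hs, if_neg (by omega)]; omega
    have a1 : X hq ω v = pick2 (ω v (Fin.castLE hq 0)) (ω v (Fin.castLE hq 1))
        (ω (v - 1) (Fin.castLE hq 0)) := by
      unfold X; rw [if_pos hy]
    have a2 : X hq ω (v + 1) = pick2 (ω (v + 1 - 1) (Fin.castLE hq 2))
        (ω (v + 1 - 1) (Fin.castLE hq 3)) (ω (v + 1 + 1) (Fin.castLE hq 0)) := by
      unfold X; rw [if_neg (by omega), if_pos (by omega)]
    rw [a1, a2, e1]
    rcases pick2_mem (ω v (Fin.castLE hq 0)) (ω v (Fin.castLE hq 1))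
      (ω (v - 1) (Fin.castLE hq 0)) with h | h <;>
    rcases pick2_mem (ω v (Fin.castLE hq 2)) (ω v (Fin.castLE hq 3))
      (ω (v + 1 + 1) (Fin.castLE hq 0)) with h' | h' <;> rw [h, h']
    · exact ne_of_ne hq _ d02
    · exact ne_of_ne hq _ d03
    · exact ne_of_ne hq _ d12
    · exact ne_of_ne hq _ d13
  · by_cases hz : (m + 3) % 2 = 1 ∧ (v : ℕ) = m + 2
    · -- `v` is the second special vertex
      have hs1 : ((v + 1 : Fin (m + 3)) : ℕ) = 0 := by rw [hs, if_pos hz.2]
      have a1 : X hq ω v = pick2 (ω (v - 1) (Fin.castLE hq 2)) (ω (v - 1) (Fin.castLE hq 3))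
          (ω (v + 1) (Fin.castLE hq 0)) := by
        unfold X; rw [if_neg hy, if_pos hz]
      have a2 : X hq ω (v + 1) = ω (v + 1) (Fin.castLE hq 0) := by
        unfold X; rw [if_neg (by omega), if_neg (by omega), if_pos (by omega)]
      rw [a1, a2]
      exact pick2_ne (ne_of_ne hq _ d23)
    · by_cases hev : (v : ℕ) % 2 = 0
      · have hlt : (v : ℕ) ≠ m + 2 := by omega
        have hs1 : ((v + 1 : Fin (m + 3)) : ℕ) = (v : ℕ) + 1 := by rw [hs, if_neg hlt]
        have a1 : X hq ω v = ω v (Fin.castLE hq 0) := by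
          unfold X; rw [if_neg hy, if_neg hz, if_pos hev]
        rw [a1]
        by_cases hy' : (m + 3) % 2 = 1 ∧ ((v + 1 : Fin (m + 3)) : ℕ) = m + 1
        · have a2 : X hq ω (v + 1) = pick2 (ω (v + 1) (Fin.castLE hq 0))
              (ω (v + 1) (Fin.castLE hq 1)) (ω (v + 1 - 1) (Fin.castLE hq 0)) := by
            unfold X; rw [if_pos hy']
          rw [a2, e1]
          exact (pick2_ne (ne_of_ne hq _ d01)).symm
        · have a2 : X hq ω (v + 1) = pick3 (ω (v + 1) (Fin.castLE hq 0))
              (ω (v + 1) (Fin.castLE hq 1)) (ω (v + 1) (Fin.castLE hq 2))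
              (ω (v + 1 - 1) (Fin.castLE hq 0)) (ω (v + 1 + 1) (Fin.castLE hq 0)) := by
            unfold X; rw [if_neg hy', if_neg (by omega), if_neg (by omega)]
          rw [a2, e1]
          exact (pick3_ne (ne_of_ne hq _ d01) (ne_of_ne hq _ d02)
            (ne_of_ne hq _ d12)).1.symm
      · have a1 : X hq ω v = pick3 (ω v (Fin.castLE hq 0)) (ω v (Fin.castLE hq 1))
            (ω v (Fin.castLE hq 2)) (ω (v - 1) (Fin.castLE hq 0))
            (ω (v + 1) (Fin.castLE hq 0)) := by
          unfold X; rw [if_neg hy, if_neg hz, if_neg hev]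
        have a2 : X hq ω (v + 1) = ω (v + 1) (Fin.castLE hq 0) := by
          unfold X
          rw [hs]
          split_ifs <;> first | rfl | omega
        rw [a1, a2]
        exact (pick3_ne (ne_of_ne hq _ d01) (ne_of_ne hq _ d02) (ne_of_ne hq _ d12)).2

end colouring

section graph

variable {m : ℕ}

theorem adj_iff (u v : Fin (m + 3)) :
    (SimpleGraph.cycleGraph (m + 3)).Adj u v ↔ u = v + 1 ∨ v = u + 1 := by
  have h := SimpleGraph.cycleGraph_adj (n := m + 1) (u := u) (v := v)
  rw [h, sub_eq_iff_eq_add, sub_eq_iff_eq_add, add_comm 1 v, add_comm 1 u]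

/-- `u` is `v` or a neighbour of `v` -/
def Near (v u : Fin (m + 3)) : Prop := u = v ∨ u = v - 1 ∨ u = v + 1

theorem near_walk {v u : Fin (m + 3)} (h : Near v u) :
    ∃ p : (SimpleGraph.cycleGraph (m + 3)).Walk v u, p.length ≤ 1 := by
  rcases h with rfl | h | h
  · exact ⟨SimpleGraph.Walk.nil, by simp⟩
  · have ha : (SimpleGraph.cycleGraph (m + 3)).Adj v u := by
      rw [adj_iff]; left; rw [h]; exact (sub_add_cancel v 1).symm
    exact ⟨ha.toWalk, by simp⟩
  · have ha : (SimpleGraph.cycleGraph (m + 3)).Adj v u := by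
      rw [adj_iff]; right; exact h
    exact ⟨ha.toWalk, by simp⟩

theorem dist_le_two {a b u : Fin (m + 3)} (ha : Near a u) (hb : Near b u) :
    (SimpleGraph.cycleGraph (m + 3)).dist a b ≤ 2 := by
  obtain ⟨p, hp⟩ := near_walk ha
  obtain ⟨r, hr⟩ := near_walk hb
  refine (SimpleGraph.dist_le (p.append r.reverse)).trans ?_
  rw [SimpleGraph.Walk.length_append, SimpleGraph.Walk.length_reverse]
  omega

end graph

/-- permutations of the colours, with the discrete `σ`-algebra -/
instance permMS (q : ℕ) : MeasurableSpace (Equiv.Perm (Fin q)) := ⊤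

instance permDMS (q : ℕ) : DiscreteMeasurableSpace (Equiv.Perm (Fin q)) :=
  ⟨fun _ => trivial⟩

/-- a uniformly distributed permutation of the colours -/
noncomputable def unif (q : ℕ) : Measure (Equiv.Perm (Fin q)) := uniformOn Set.univ

instance unif_prob (q : ℕ) : IsProbabilityMeasure (unif q) := by
  unfold unif; infer_instance

theorem unif_map (q : ℕ) (σ : Equiv.Perm (Fin q)) :
    MeasurePreserving (fun π => σ * π) (unif q) (unif q) := by
  refine ⟨Measurable.of_discrete, ?_⟩
  ext s hs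
  rw [Measure.map_apply Measurable.of_discrete hs]
  unfold unif
  rw [uniformOn_univ, uniformOn_univ, Measure.count_apply (MeasurableSet.of_discrete),
    Measure.count_apply hs]
  congr 2
  have h1 : (fun π => σ * π) ⁻¹' s = (Equiv.mulLeft σ).symm '' s := by
    rw [Equiv.image_eq_preimage_symm]; rfl
  rw [h1, Function.Injective.encard_image (Equiv.mulLeft σ).symm.injective]

/-- independent uniform permutations -/
noncomputable def P (m q : ℕ) : Measure (Fin (m + 3) → Equiv.Perm (Fin q)) :=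
  Measure.pi fun _ => unif q

instance P_prob (m q : ℕ) : IsProbabilityMeasure (P m q) := by
  unfold P; infer_instance

/-- **Colour-symmetric `k`-dependent `q`-colourings of all cycles for `k ≥ 2`, `q ≥ 4`.** -/
theorem result :
    ∀ k q : ℕ, 2 ≤ k → 4 ≤ q →
      ∀ n : ℕ, 3 ≤ n →
        ∃ μ : Measure (Fin n → Fin q), IsProbabilityMeasure μ ∧
          (∀ᵐ x ∂μ, ∀ i j : Fin n, (SimpleGraph.cycleGraph n).Adj i j → x i ≠ x j) ∧
          (∀ σ : Equiv.Perm (Fin q), μ.map (fun x : Fin n → Fin q => σ ∘ x) = μ) ∧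
          (∀ A B : Set (Fin n),
            (∀ a ∈ A, ∀ b ∈ B, k < (SimpleGraph.cycleGraph n).dist a b) →
            IndepFun (fun x : Fin n → Fin q => fun a : A => x a)
              (fun x : Fin n → Fin q => fun b : B => x b) μ) := by
  intro k q hk hq n hn
  obtain ⟨m, rfl⟩ : ∃ m, n = m + 3 := ⟨n - 3, by omega⟩
  have hXm : Measurable (X hq : (Fin (m + 3) → Equiv.Perm (Fin q)) → Fin (m + 3) → Fin q) :=
    Measurable.of_discrete
  refine ⟨(P m q).map (X hq), Measure.isProbabilityMeasure_map hXm.aemeasurable, ?_, ?_, ?_⟩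
  · rw [ae_map_iff hXm.aemeasurable (Set.toFinite _).measurableSet]
    refine Filter.Eventually.of_forall fun ω i j hij => ?_
    rcases (adj_iff i j).1 hij with h | h
    · rw [h]; exact (X_proper hq ω j).symm
    · rw [h]; exact X_proper hq ω i
  · intro σ
    have h1 : MeasurePreserving (fun (ω : Fin (m + 3) → Equiv.Perm (Fin q)) (u : Fin (m + 3)) =>
        σ * ω u) (P m q) (P m q) :=
      measurePreserving_pi (fun _ => unif q) (fun _ => unif q) (fun _ => unif_map q σ)
    rw [Measure.map_map Measurable.of_discrete hXm]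
    conv_rhs => rw [← h1.map_eq]
    rw [Measure.map_map hXm h1.measurable]
    congr 1
    funext ω v
    exact (X_map hq σ ω v).symm
  · intro A B hAB
    classical
    obtain ⟨S, hS⟩ : ∃ S : Finset (Fin (m + 3)),
      S = Finset.univ.filter fun u => ∃ a ∈ A, Near a u := ⟨_, rfl⟩
    obtain ⟨T, hT⟩ : ∃ T : Finset (Fin (m + 3)),
      T = Finset.univ.filter fun u => ∃ b ∈ B, Near b u := ⟨_, rfl⟩
    have hST : Disjoint S T := by
      rw [Finset.disjoint_left]
      intro u hu hu'
      rw [hS, Finset.mem_filter] at hu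
      rw [hT, Finset.mem_filter] at hu'
      obtain ⟨-, a, ha, hau⟩ := hu
      obtain ⟨-, b, hb, hbu⟩ := hu'
      have h1 := hAB a ha b hb
      have h2 := dist_le_two hau hbu
      omega
    have hind : iIndepFun (fun (i : Fin (m + 3)) (ω : Fin (m + 3) → Equiv.Perm (Fin q)) => ω i)
        (P m q) := by
      have h := iIndepFun_pi (μ := fun _ : Fin (m + 3) => unif q) (X := fun _ x => x)
        (fun _ => aemeasurable_id)
      exact h
    have h2 := hind.indepFun_finset S T hST (fun i => measurable_pi_apply i)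
    -- extension by the identity
    obtain ⟨ext, hext⟩ : ∃ ext : (U : Finset (Fin (m + 3))) → (U → Equiv.Perm (Fin q)) →
      Fin (m + 3) → Equiv.Perm (Fin q), ext = fun U η u => if h : u ∈ U then η ⟨u, h⟩ else 1 :=
      ⟨_, rfl⟩
    have hextv : ∀ (U : Finset (Fin (m + 3))) (ω : Fin (m + 3) → Equiv.Perm (Fin q)), ∀ u ∈ U,
        ext U (fun i : U => ω i) u = ω u := by
      intro U ω u hu
      rw [hext]
      simp only
      rw [dif_pos hu]
    have h3 := h2.comp
      (φ := fun η : S → Equiv.Perm (Fin q) => fun a : A => X hq (ext S η) a)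
      (ψ := fun η : T → Equiv.Perm (Fin q) => fun b : B => X hq (ext T η) b)
      Measurable.of_discrete Measurable.of_discrete
    have e1 : ((fun η : S → Equiv.Perm (Fin q) => fun a : A => X hq (ext S η) a) ∘
        fun ω (i : S) => ω i) = (fun x : Fin (m + 3) → Fin q => fun a : A => x a) ∘ X hq := by
      funext ω a
      simp only [Function.comp_apply]
      have hm : ∀ u, Near (a : Fin (m + 3)) u → u ∈ S := by
        intro u hu
        rw [hS, Finset.mem_filter]
        exact ⟨Finset.mem_univ _, a, a.2, hu⟩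
      exact X_local hq _ _ _ (hextv S ω _ (hm _ (Or.inl rfl)))
        (hextv S ω _ (hm _ (Or.inr (Or.inl rfl)))) (hextv S ω _ (hm _ (Or.inr (Or.inr rfl))))
    have e2 : ((fun η : T → Equiv.Perm (Fin q) => fun b : B => X hq (ext T η) b) ∘
        fun ω (i : T) => ω i) = (fun x : Fin (m + 3) → Fin q => fun b : B => x b) ∘ X hq := by
      funext ω b
      simp only [Function.comp_apply]
      have hm : ∀ u, Near (b : Fin (m + 3)) u → u ∈ T := by
        intro u hu
        rw [hT, Finset.mem_filter]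
        exact ⟨Finset.mem_univ _, b, b.2, hu⟩
      exact X_local hq _ _ _ (hextv T ω _ (hm _ (Or.inl rfl)))
        (hextv T ω _ (hm _ (Or.inr (Or.inl rfl)))) (hextv T ω _ (hm _ (Or.inr (Or.inr rfl))))
    have h4 : IndepFun ((fun x : Fin (m + 3) → Fin q => fun a : A => x a) ∘ X hq)
        ((fun x : Fin (m + 3) → Fin q => fun b : B => x b) ∘ X hq) (P m q) := by
      rw [← e1, ← e2]
      exact h3
    rw [indepFun_iff_measure_inter_preimage_eq_mul] at h4 ⊢
    intro s t hs ht
    have h5 := h4 s t hs ht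
    rw [Measure.map_apply hXm (Set.toFinite _).measurableSet,
      Measure.map_apply hXm (Set.toFinite _).measurableSet,
      Measure.map_apply hXm (Set.toFinite _).measurableSet]
    exact h5

end Pool.Agent.Results.MP_240aa8_pr.TwoDependentCycles
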